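import Mathlib
import Pool.Agent.Y748.SR.Stm

/-! The lattice polynomials from the masses, and their limits (jobs SR-HOLH, SR-LIM). -/

set_option autoImplicit false

open Finset Filter Topology

namespace Pool.Agent.Y923.SR

open Pool.Agent.Y748.SR

/-- the weights of the subsets of `R` disjoint from `T` -/
theorem sum_weights (T R : Finset ℤ) (y : ℤ → ℝ) :
    ∑ S ∈ R.powerset, (if Disjoint T S then (∏ n ∈ S, (1 - y n)) * ∏ n ∈ R \ S, y n else 0) =
      ∏ n ∈ T ∩ R, y n := by
  have h := Finset.prod_add (fun n => if n ∈ T then 0 else 1 - y n) y R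
  have h1 : ∏ n ∈ R, ((if n ∈ T then 0 else 1 - y n) + y n) = ∏ n ∈ T ∩ R, y n := by
    rw [inter_comm, ← filter_mem_eq_inter, prod_filter]
    refine prod_congr rfl fun n _ => ?_
    split_ifs <;> ring
  rw [← h1, h]
  refine sum_congr rfl fun S _ => ?_
  by_cases hd : Disjoint T S
  · rw [if_pos hd]
    congr 1
    refine prod_congr rfl fun n hn => ?_
    rw [if_neg (fun hT => (disjoint_left.1 hd) hT hn)]
  · rw [if_neg hd]
    rw [not_disjoint_iff] at hd
    obtain ⟨n, hT, hS⟩ := hd
    rw [prod_eq_zero hS (by rw [if_pos hT]), zero_mul]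

theorem t_HOLH : S_HOLH := by
  intro X g A e h Q R y hQR
  unfold hh
  have h1 : ∀ S ∈ R.powerset, HasSum (fun T : Finset ℤ => (if Disjoint T (Q ∪ S) then e T else 0) *
      ((∏ n ∈ S, (1 - y n)) * ∏ n ∈ R \ S, y n))
      (g A (Q ∪ S) * ((∏ n ∈ S, (1 - y n)) * ∏ n ∈ R \ S, y n)) :=
    fun S _ => (h.sum (Q ∪ S)).mul_right _
  have h2 := hasSum_sum h1
  convert h2 using 1
  funext T
  by_cases hd : Disjoint T Q
  · rw [if_pos hd, ← sum_weights T R y, mul_sum]
    refine sum_congr rfl fun S _ => ?_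
    by_cases hS : Disjoint T S
    · rw [if_pos hS, if_pos (disjoint_union_right.2 ⟨hd, hS⟩)]
    · rw [if_neg hS, if_neg (fun h' => hS (disjoint_union_right.1 h').2), mul_zero, zero_mul]
  · rw [if_neg hd]
    refine (sum_eq_zero fun S _ => ?_).symm
    rw [if_neg (fun h' => hd (disjoint_union_right.1 h').1), zero_mul]

theorem t_LIM : S_HOLH → S_LIM := by
  intro hH X g A e h T y
  have hQ : ∀ N : ℕ, Disjoint (Finset.Icc (-(N : ℤ)) N \ T) T := fun N => sdiff_disjoint
  have hs := fun N : ℕ => hH X g A e h (Finset.Icc (-(N : ℤ)) N \ T) T y (hQ N)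
  have he : Summable e := by
    have h0 := (h.sum ∅).summable
    simpa using h0
  set f : ℕ → Finset ℤ → ℝ := fun N T' =>
    if Disjoint T' (Finset.Icc (-(N : ℤ)) N \ T) then e T' * ∏ n ∈ T' ∩ T, y n else 0 with hf
  set f0 : Finset ℤ → ℝ := fun T' => if T' ⊆ T then e T' * ∏ n ∈ T', y n else 0 with hf0
  have hlim : ∀ T', Tendsto (fun N => f N T') atTop (𝓝 (f0 T')) := by
    intro T'
    by_cases hT : T' ⊆ T
    · have h1 : ∀ N, f N T' = f0 T' := by
        intro N
        simp only [hf, hf0]
        rw [if_pos hT, if_pos, inter_eq_left.2 hT]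
        exact disjoint_of_subset_left hT disjoint_sdiff
      simp only [h1]
      exact tendsto_const_nhds
    · have h2 : f0 T' = 0 := by simp only [hf0]; rw [if_neg hT]
      rw [h2]
      rw [not_subset] at hT
      obtain ⟨n, hn, hnT⟩ := hT
      refine tendsto_const_nhds.congr' ?_
      filter_upwards [eventually_ge_atTop n.natAbs] with N hN
      simp only [hf]
      rw [if_neg]
      rw [not_disjoint_iff]
      refine ⟨n, hn, ?_⟩
      rw [Finset.mem_sdiff, Finset.mem_Icc]
      refine ⟨⟨?_, ?_⟩, hnT⟩ <;> omega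
  have hb : ∀ N T', ‖f N T'‖ ≤ e T' * ∏ n ∈ T, (1 + |y n|) := by
    intro N T'
    have hp : 0 ≤ e T' * ∏ n ∈ T, (1 + |y n|) :=
      mul_nonneg (h.nonneg T') (prod_nonneg fun n _ => by positivity)
    simp only [hf]
    split_ifs with hd
    · rw [norm_mul, Real.norm_of_nonneg (h.nonneg T'), Real.norm_eq_abs, abs_prod]
      refine mul_le_mul_of_nonneg_left ?_ (h.nonneg T')
      calc ∏ n ∈ T' ∩ T, |y n| ≤ ∏ n ∈ T' ∩ T, (1 + |y n|) :=
            prod_le_prod (fun n _ => abs_nonneg _) (fun n _ => by linarith [abs_nonneg (y n)])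
        _ ≤ ∏ n ∈ T, (1 + |y n|) := by
            refine Finset.prod_le_prod_of_subset_of_one_le inter_subset_right ?_ ?_
            · intro n _
              positivity
            · intro n _ _
              linarith [abs_nonneg (y n)]
    · rw [norm_zero]
      exact hp
  have hmain := tendsto_tsum_of_dominated_convergence (he.mul_right _) hlim
    (Eventually.of_forall fun N T' => hb N T')
  have e1 : ∀ N, ∑' T', f N T' = hh g A (Finset.Icc (-(N : ℤ)) N \ T) T y := fun N => (hs N).tsum_eq
  have e2 : ∑' T', f0 T' = ∑ T1 ∈ T.powerset, e T1 * ∏ n ∈ T1, y n := by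
    rw [tsum_eq_sum (s := T.powerset)]
    · refine sum_congr rfl fun S hS => ?_
      simp only [hf0]
      rw [if_pos (mem_powerset.1 hS)]
    · intro S hS
      simp only [hf0]
      rw [if_neg (fun hh => hS (mem_powerset.2 hh))]
  rw [e2] at hmain
  simp only [e1] at hmain
  exact hmain

end Pool.Agent.Y923.SR
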