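import Mathlib
import Pool.Agent.Y748.SR.Stm

/-! Independent lattice sites and one more site (job SR-ONE). -/

set_option autoImplicit false

open Finset Filter Topology

namespace Pool.Agent.Y923.SR

open Pool.Agent.Y748.SR

theorem lin_zero (D E : ℝ) (h : ∀ t : ℝ, 0 ≤ t * D + t ^ 2 * E) : D = 0 := by
  by_contra hD
  have hp : 0 < 1 + |E| := by positivity
  have h1 := h (-D / (1 + |E|))
  have h2 : -D / (1 + |E|) * D + (-D / (1 + |E|)) ^ 2 * E =
      -(D ^ 2 / (1 + |E|) ^ 2) * (1 + |E| - E) := by
    field_simp
    ring
  rw [h2] at h1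
  have h3 : 0 < D ^ 2 / (1 + |E|) ^ 2 := by positivity
  have h4 : 0 < 1 + |E| - E := by
    have := le_abs_self E
    linarith
  nlinarith [mul_pos h3 h4]

theorem PW_single {X : Type} [DecidableEq X] (f : Finset X → ℝ) (C : Finset X) (x : X)
    (w : X → ℝ) : PW f C {x} w = f C + f (insert x C) * w x := by
  unfold PW
  have e : ({x} : Finset X).powerset = {∅, {x}} := by
    ext s
    simp [Finset.subset_singleton_iff]
  rw [e, sum_pair (by exact (singleton_ne_empty x).symm)]
  simp [union_comm C {x}, ← insert_eq]

theorem t_ONE (hind : S_IND) : S_ONE := by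
  intro I _ r q hr hq h0 h1 h2
  have part1 : ∀ S : Finset ℤ, r (S.image q) = 1 := by
    intro S
    rw [hind I r (S.image q) ?_ h0 ?_]
    · exact prod_eq_one fun i _ => h1 i
    · intro C Y i j w a1 a2 a3 a4 a5 a6 _
      exact hr C Y i j w a1 a2 a3 a4 a5 a6
    · intro i hi j hj hij
      rw [mem_image] at hi hj
      obtain ⟨m, _, rfl⟩ := hi
      obtain ⟨n, _, rfl⟩ := hj
      rw [h2 m n (fun e => hij (by rw [e])), h1, h1, one_mul]
  refine ⟨part1, fun x a hx ha => ?_⟩
  have hxS : ∀ S : Finset ℤ, x ∉ S.image q := by
    intro S h
    rw [mem_image] at h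
    obtain ⟨n, _, hn⟩ := h
    exact hx n hn.symm
  have hqS : ∀ (n : ℤ) (S : Finset ℤ), n ∉ S → q n ∉ S.image q := by
    intro n S hn h
    rw [mem_image] at h
    obtain ⟨m, hm, he⟩ := h
    rw [hq he] at hm
    exact hn hm
  have key : ∀ (T : Finset ℤ) (m n : ℤ), m ≠ n → m ∉ T → n ∉ T →
      r (insert x ((insert m (insert n T)).image q)) =
        r (insert x ((insert m T).image q)) + r (insert x ((insert n T).image q)) -
          r (insert x (T.image q)) := by
    intro T m n hmn hm hn
    have h : ∀ t : ℝ, 0 ≤ t * (r (insert x ((insert m T).image q)) +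
        r (insert x ((insert n T).image q)) - r (insert x (T.image q)) -
        r (insert x ((insert m (insert n T)).image q))) +
        t ^ 2 * (r (insert x ((insert m T).image q)) * r (insert x ((insert n T).image q)) -
          r (insert x (T.image q)) * r (insert x ((insert m (insert n T)).image q))) := by
      intro t
      have h3 := hr (T.image q) {x} (q m) (q n) (fun _ => t) (fun e => hmn (hq e))
        (hqS m T hm) (hqS n T hn) (by simpa using fun e => hx m e.symm)
        (by simpa using fun e => hx n e.symm) (by
          rw [disjoint_singleton_right]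
          exact hxS T)
      unfold RayI at h3
      rw [PW_single, PW_single, PW_single, PW_single] at h3
      rw [← image_insert, ← image_insert, ← image_insert, part1, part1, part1, part1] at h3
      linarith
    have := lin_zero _ _ h
    linarith
  have main : ∀ (k : ℕ) (S : Finset ℤ), S.card = k →
      r (insert x (S.image q)) = 1 - ∑ n ∈ S, a n := by
    intro k
    induction k using Nat.strong_induction_on with
    | _ k ih =>
      intro S hS
      rcases S.eq_empty_or_nonempty with rfl | ⟨m, hm⟩
      · simp [h1]
      · obtain ⟨S1, hm1, rfl⟩ : ∃ S1 : Finset ℤ, m ∉ S1 ∧ insert m S1 = S :=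
          ⟨S.erase m, notMem_erase m S, insert_erase hm⟩
        rcases S1.eq_empty_or_nonempty with rfl | ⟨n, hn⟩
        · have e : insert x ((insert m (∅ : Finset ℤ)).image q) = {x, q m} := by
            simp
          rw [e, ha]
          simp
        · obtain ⟨T, hn1, rfl⟩ : ∃ T : Finset ℤ, n ∉ T ∧ insert n T = S1 :=
            ⟨S1.erase n, notMem_erase n S1, insert_erase hn⟩
          have hmn : m ≠ n := fun e => hm1 (by rw [e]; exact mem_insert_self n T)
          have hmT : m ∉ T := fun e => hm1 (mem_insert_of_mem e)
          rw [card_insert_of_notMem hm1, card_insert_of_notMem hn1] at hS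
          rw [key T m n hmn hmT hn1,
            ih (T.card + 1) (by omega) (insert m T) (card_insert_of_notMem hmT),
            ih (T.card + 1) (by omega) (insert n T) (card_insert_of_notMem hn1),
            ih T.card (by omega) T rfl, sum_insert hm1, sum_insert hn1, sum_insert hmT]
          ring
  exact fun S => main S.card S rfl

end Pool.Agent.Y923.SR
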